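import Pool.Agent.Helper62.PM.St2

set_option autoImplicit false

open MeasureTheory Metric Set Filter Topology Polynomial
open scoped RealInnerProductSpace ContDiff

namespace Pool.Agent.Helper98.PM

open Pool.Agent.Helper62.PM
open Pool.Agent.Helper62.Mink

/-- continuous functions are integrable on the sphere -/
private theorem integrable_sphere {n : ℕ} {f : E n → ℝ} (hf : Continuous f) :
    Integrable (fun w : sphere (0 : E n) 1 => f (w : E n)) (sg n) :=
  (hf.comp continuous_subtype_val).integrable_of_hasCompactSupport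
    (HasCompactSupport.of_compactSpace _)

/-- a rotation invariant family of nonnegative continuous functions has a positive lower bound -/
private theorem lower {n : ℕ} (hn : 2 ≤ n) (F : E n → E n → ℝ) (hc : ∀ u, Continuous (F u))
    (h0 : ∀ u w, 0 ≤ F u w) (hF : ∀ (θ : E n ≃ₗᵢ[ℝ] E n) (u w : E n), F (θ u) (θ w) = F u w)
    (h1 : ∀ u, ‖u‖ = 1 → F u u ≠ 0) :
    ∃ c : ℝ, 0 < c ∧ ∀ u, ‖u‖ = 1 → ∫ w : sphere (0 : E n) 1, F u (w : E n) ∂(sg n) = c := by
  have hu0 : ‖(EuclideanSpace.single (⟨0, by omega⟩ : Fin n) (1 : ℝ) : E n)‖ = 1 := by simp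
  set u0 : E n := EuclideanSpace.single (⟨0, by omega⟩ : Fin n) (1 : ℝ)
  refine ⟨∫ w : sphere (0 : E n) 1, F u0 (w : E n) ∂(sg n), ?_, ?_⟩
  · refine Continuous.integral_pos_of_hasCompactSupport_nonneg_nonzero (x := ⟨u0, by simpa using hu0⟩)
      ((hc u0).comp continuous_subtype_val) (HasCompactSupport.of_compactSpace _) ?_ ?_
    · intro w
      exact h0 u0 w
    · exact h1 u0 hu0
  · intro u hu
    obtain ⟨θ, -, hθ⟩ := exists_rot hn hu0 hu
    rw [← sphere_integral_comp θ (fun w => F u w), ← hθ]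
    simp only [hF]

theorem hXJ : StXJ := by
  intro n hn
  have hne : Nonempty (Fin n) := ⟨⟨0, by omega⟩⟩
  -- the two constants
  obtain ⟨c1, hc1, hc1'⟩ := lower hn (fun u w => (inner ℝ u w : ℝ) ^ 2)
    (fun u => by fun_prop) (fun u w => sq_nonneg _)
    (fun θ u w => by simp only [LinearIsometryEquiv.inner_map_map])
    (fun u hu => by
      have h : (inner ℝ u u : ℝ) = 1 := by rw [real_inner_self_eq_norm_sq, hu]; norm_num
      show (inner ℝ u u : ℝ) ^ 2 ≠ 0
      rw [h]
      norm_num)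
  obtain ⟨c2, hc2, hc2'⟩ := lower hn (fun u w => max 0 (1 - ‖u - w‖))
    (fun u => by fun_prop) (fun u w => le_max_left _ _)
    (fun θ u w => by rw [← map_sub, LinearIsometryEquiv.norm_map])
    (fun u _ => by simp)
  refine ⟨(n + 1) / c1 + 1 / c2, by positivity, ?_⟩
  intro H Λ hH hΛ hΛi x
  obtain ⟨K, hK⟩ := exists_body hH
  obtain ⟨p, hp⟩ := K.nonempty
  have hpH : ∀ z, (inner ℝ p z : ℝ) ≤ H z := by
    intro z
    rw [← hK]
    exact inner_le_supp K hp z
  have hHc : Continuous H := hH.continuous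
  have hΛ0 : 0 ≤ Λ := le_trans (abs_nonneg _) hΛ
  -- `r = H - ⟨p, ·⟩`
  set r : E n → ℝ := fun z => H z - inner ℝ p z with hr
  have hrc : Continuous r := by rw [hr]; fun_prop
  have hr0 : ∀ z, 0 ≤ r z := fun z => sub_nonneg.mpr (hpH z)
  have hrsub : ∀ z w, r z ≤ r w + r (z - w) := by
    intro z w
    have h1 := hH.add_le w (z - w)
    rw [add_sub_cancel] at h1
    simp only [hr, inner_sub_right]
    linarith
  have hrhom : ∀ c : ℝ, 0 ≤ c → ∀ z, r (c • z) = c * r z := by
    intro c hc z
    simp only [hr, hH.pos_hom c hc, inner_smul_right]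
    ring
  -- the integral of a linear function vanishes
  have hlin : ∫ w : sphere (0 : E n) 1, (inner ℝ p (w : E n) : ℝ) ∂(sg n) = 0 := by
    have h1 := sphere_integral_comp (LinearIsometryEquiv.neg ℝ) (fun w : E n => (inner ℝ p w : ℝ))
    simp only [LinearIsometryEquiv.coe_neg, inner_neg_right, integral_neg] at h1
    linarith
  have hrint : ∫ w : sphere (0 : E n) 1, r (w : E n) ∂(sg n) ≤ Λ := by
    have h1 : ∫ w : sphere (0 : E n) 1, r (w : E n) ∂(sg n) =
        ∫ w : sphere (0 : E n) 1, H (w : E n) ∂(sg n) - 0 := by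
      rw [← hlin, ← integral_sub (integrable_sphere hHc)
        (integrable_sphere (f := fun w => (inner ℝ p w : ℝ)) (by fun_prop))]
    rw [h1, sub_zero]
    exact le_trans (le_abs_self _) hΛ
  -- bound for `p`
  have hpn : ‖p‖ ≤ (n + 1) * Λ / c1 := by
    have h1 : ∫ w : sphere (0 : E n) 1, (inner ℝ p (w : E n) : ℝ) ^ 2 ∂(sg n) = c1 * ‖p‖ ^ 2 := by
      rcases eq_or_ne p 0 with h | h
      · simp [h]
      · have h2 := hc1' (‖p‖⁻¹ • p) (by rw [norm_smul, norm_inv, norm_norm]; exact inv_mul_cancel₀ (norm_ne_zero_iff.mpr h))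
        simp only [inner_smul_left, mul_pow, integral_const_mul, RCLike.conj_to_real] at h2
        rw [← h2, inv_pow]
        field_simp
    have h2 : ∫ w : sphere (0 : E n) 1, H (w : E n) * (inner ℝ p (w : E n) : ℝ) ∂(sg n) =
        ∑ i : Fin n, p i * ∫ w : sphere (0 : E n) 1, H (w : E n) * (w : E n) i ∂(sg n) := by
      simp_rw [← integral_const_mul]
      rw [← integral_finsetSum]
      · refine integral_congr_ae (Eventually.of_forall fun w => ?_)
        simp only [PiLp.inner_apply, RCLike.inner_apply, conj_trivial, Finset.mul_sum]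
        refine Finset.sum_congr rfl fun i _ => ?_
        ring
      · intro i _
        exact integrable_sphere (f := fun w => p i * (H w * w i)) (by fun_prop)
    have h3 : ∫ w : sphere (0 : E n) 1, H (w : E n) * (inner ℝ p (w : E n) : ℝ) ∂(sg n) ≤
        n * (‖p‖ * Λ) := by
      rw [h2]
      calc ∑ i : Fin n, p i * ∫ w : sphere (0 : E n) 1, H (w : E n) * (w : E n) i ∂(sg n)
          ≤ ∑ _i : Fin n, ‖p‖ * Λ := by
            refine Finset.sum_le_sum fun i _ => ?_
            refine le_trans (le_abs_self _) ?_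
            rw [abs_mul]
            refine mul_le_mul ?_ (hΛi i) (abs_nonneg _) (norm_nonneg _)
            rw [← Real.norm_eq_abs]
            exact PiLp.norm_apply_le p i
        _ = n * (‖p‖ * Λ) := by
            rw [Finset.sum_const, Finset.card_univ, Fintype.card_fin, nsmul_eq_mul]
    have h4 : -(‖p‖ * Λ) ≤ ∫ w : sphere (0 : E n) 1, r (w : E n) * (inner ℝ p (w : E n) : ℝ) ∂(sg n) := by
      have h5 : -(‖p‖ * ∫ w : sphere (0 : E n) 1, r (w : E n) ∂(sg n)) ≤
          ∫ w : sphere (0 : E n) 1, r (w : E n) * (inner ℝ p (w : E n) : ℝ) ∂(sg n) := by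
        rw [← neg_mul, ← integral_const_mul]
        refine integral_mono (integrable_sphere (f := fun w => -‖p‖ * r w) (by fun_prop))
          (integrable_sphere (f := fun w => r w * (inner ℝ p w : ℝ)) (by fun_prop)) fun w => ?_
        have h6 : |(inner ℝ p (w : E n) : ℝ)| ≤ ‖p‖ := by
          refine le_trans (abs_real_inner_le_norm _ _) ?_
          have : ‖(w : E n)‖ = 1 := mem_sphere_zero_iff_norm.mp w.2
          rw [this, mul_one]
        have h7 := (abs_le.mp h6).1
        have := mul_le_mul_of_nonneg_left h7 (hr0 w)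
        simp only []
        linarith
      refine le_trans ?_ h5
      have := mul_le_mul_of_nonneg_left hrint (norm_nonneg p)
      linarith
    have h5 : ∫ w : sphere (0 : E n) 1, H (w : E n) * (inner ℝ p (w : E n) : ℝ) ∂(sg n) =
        ∫ w : sphere (0 : E n) 1, (inner ℝ p (w : E n) : ℝ) ^ 2 ∂(sg n) +
        ∫ w : sphere (0 : E n) 1, r (w : E n) * (inner ℝ p (w : E n) : ℝ) ∂(sg n) := by
      rw [← integral_add (integrable_sphere (f := fun w => (inner ℝ p w : ℝ) ^ 2) (by fun_prop))
        (integrable_sphere (f := fun w => r w * (inner ℝ p w : ℝ)) (by fun_prop))]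
      refine integral_congr_ae (Eventually.of_forall fun w => ?_)
      simp only [hr]
      ring
    rcases eq_or_ne p 0 with h | h
    · rw [h, norm_zero]
      positivity
    · have hpos : 0 < ‖p‖ := norm_pos_iff.mpr h
      rw [le_div_iff₀ hc1]
      have h6 : ‖p‖ * (‖p‖ * c1) ≤ ‖p‖ * ((n + 1) * Λ) := by
        nlinarith
      exact le_of_mul_le_mul_left h6 hpos
  -- bound for `r`
  obtain ⟨x0, hx0, hmax⟩ := (isCompact_sphere (0 : E n) 1).exists_isMaxOn
    (by
      have : Nontrivial (E n) := inferInstance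
      exact NormedSpace.sphere_nonempty.mpr zero_le_one) hrc.continuousOn
  have hx01 : ‖x0‖ = 1 := by simpa using hx0
  have hle : ∀ z, r z ≤ r x0 * ‖z‖ := by
    intro z
    rcases eq_or_ne z 0 with h | h
    · have := hrhom 0 le_rfl 0
      rw [h]
      simp only [zero_smul, zero_mul] at this
      simp [this]
    · have h1 : z = ‖z‖ • (‖z‖⁻¹ • z) := by
        rw [smul_smul, mul_inv_cancel₀ (norm_ne_zero_iff.mpr h), one_smul]
      have h2 : ‖z‖⁻¹ • z ∈ sphere (0 : E n) 1 := by
        rw [mem_sphere_zero_iff_norm, norm_smul, norm_inv, norm_norm]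
        exact inv_mul_cancel₀ (norm_ne_zero_iff.mpr h)
      have h3 := hmax h2
      simp only [mem_ofPred_eq] at h3
      calc r z = ‖z‖ * r (‖z‖⁻¹ • z) := by rw [← hrhom _ (norm_nonneg z), ← h1]
        _ ≤ ‖z‖ * r x0 := mul_le_mul_of_nonneg_left h3 (norm_nonneg z)
        _ = r x0 * ‖z‖ := mul_comm _ _
  have hM : r x0 ≤ Λ / c2 := by
    rw [le_div_iff₀ hc2]
    refine le_trans ?_ hrint
    rw [← hc2' x0 hx01, ← integral_const_mul]
    refine integral_mono (integrable_sphere (f := fun w => r x0 * max 0 (1 - ‖x0 - w‖)) (by fun_prop))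
      (integrable_sphere hrc) fun w => ?_
    simp only []
    rcases le_total 0 (1 - ‖x0 - (w : E n)‖) with h | h
    · rw [max_eq_right h]
      have h1 := hrsub x0 w
      have h2 := hle (x0 - w)
      linarith
    · rw [max_eq_left h, mul_zero]
      exact hr0 w
  -- conclusion
  have h1 : |(inner ℝ p x : ℝ)| ≤ ‖p‖ * ‖x‖ := abs_real_inner_le_norm _ _
  have h2 : H x = inner ℝ p x + r x := by simp only [hr]; ring
  have h3 : |r x| ≤ r x0 * ‖x‖ := by rw [abs_of_nonneg (hr0 x)]; exact hle x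
  rw [h2]
  calc |(inner ℝ p x : ℝ) + r x| ≤ |(inner ℝ p x : ℝ)| + |r x| := abs_add_le _ _
    _ ≤ ‖p‖ * ‖x‖ + r x0 * ‖x‖ := add_le_add h1 h3
    _ ≤ (n + 1) * Λ / c1 * ‖x‖ + Λ / c2 * ‖x‖ :=
        add_le_add (mul_le_mul_of_nonneg_right hpn (norm_nonneg x))
          (mul_le_mul_of_nonneg_right hM (norm_nonneg x))
    _ = ((n + 1) / c1 + 1 / c2) * Λ * ‖x‖ := by ring

end Pool.Agent.Helper98.PM
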